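import Pool.Agent.Helper53.UR.Par
import Pool.Agent.Helper14.BR.RUNC
import Pool.Agent.Helper35.BR.CODE
import Pool.Agent.Helper12.BR.WORD
import Pool.Agent.Helper69.BR.SIZ

/-!
# PROJECT UR (MP_c578c8_lc), goal FNU: the question describes the machine
-/

namespace Pool.Agent.Helper67.UR

open Pool.Agent.Helper65.LinSpace Pool.Agent.Helper78.Mpc Pool.Agent.Helper28.Ram Finset Filter
open Pool.Agent.Helper65.BR
open Pool.Agent.Helper28.Long (ZL)
open Pool.Agent.Helper53.UR
open Pool.Agent.Helper53.CTG (ev)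

/-- The number of a short word is small. -/
theorem num_lt {w : List Bool} {S : ℕ} (h : w.length ≤ S) : num w < 2 ^ (S + 1) := by
  have h1 : Nat.log 2 (num w) = w.length := Pool.Agent.Helper65.LinSpace.log_num w
  have h2 : num w < 2 ^ (Nat.log 2 (num w) + 1) := Nat.lt_pow_succ_log_self (by norm_num) _
  rw [h1] at h2
  exact h2.trans_le (Nat.pow_le_pow_right (by norm_num) (by omega))

theorem accN_eq_zero {w : List Bool} (h : ¬ w.head? = some true) : accN (num w) = 0 := by
  have h1 := accN_le (num w)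
  have h2 : ¬ accN (num w) = 1 := fun h3 => h ((accN_num w).1 h3)
  omega

theorem ZL_le' (n : ℕ) : ZL n ≤ n := Pool.Agent.Helper28.Long.ZL_le n

theorem lt01_ne {a b : ℕ} (h : lt01 a b ≠ 0) : a < b := by
  unfold lt01 at h
  by_contra h2
  exact h (if_neg h2)

theorem gFNU : GoalFNU := by
  intro hTR hP hAS A C
  have hR := Pool.Agent.Helper14.BR.runc
  have hW := Pool.Agent.Helper12.BR.WORD
  obtain ⟨eS, eA, eB, eN, eW, c, hc⟩ := Pool.Agent.Helper35.BR.CODE A
  obtain ⟨n₀, hn₀⟩ := eventually_atTop.1 (Pool.Agent.Helper69.BR.siz c)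
  obtain ⟨n₁, hn₁⟩ := eventually_atTop.1 (hAS C)
  obtain ⟨e, he⟩ : ∃ e, e = Nat.pair (Nat.pair eS eA) (Nat.pair eB (Nat.pair eN eW)) := ⟨_, rfl⟩
  refine ⟨e, n₀ + n₁, fun w y hw => ?_⟩
  have hlog : Nat.log 2 (num w) = w.length := Pool.Agent.Helper65.LinSpace.log_num w
  -- the parameters
  have pS : ∀ T p, (prm e (num w) (num y) T p).S = bT w.length T 0 := fun T p => by
    show bT (Nat.log 2 (num w)) T 0 = _
    rw [hlog]
  have pH : ∀ T p, (prm e (num w) (num y) T p).H = bT w.length T 1 := fun T p => by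
    show bT (Nat.log 2 (num w)) T 1 = _
    rw [hlog]
  have pZ : ∀ T p, (prm e (num w) (num y) T p).Z = bT w.length T 2 := fun T p => by
    show bT (Nat.log 2 (num w)) T 2 = _
    rw [hlog]
  have pΛ : ∀ T p, (prm e (num w) (num y) T p).Λ = LW w.length := fun T p => by
    show LW (Nat.log 2 (num w)) = _
    rw [hlog]
  have pβ : ∀ T p, (prm e (num w) (num y) T p).β = 2 ^ (2 * ll w.length) := fun T p => by
    show 2 ^ (2 * ll (Nat.log 2 (num w))) = _
    rw [hlog]
  have hcod : ∀ T p, CodB A (prm e (num w) (num y) T p) := by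
    intro T p
    obtain ⟨h1, h2, h3⟩ := hn₀ w.length (by omega) (bT w.length T 0) (min_le_right _ _)
      (bT w.length T 1) (min_le_right _ _) (bT w.length T 2) (min_le_right _ _)
    obtain ⟨h4, h5, h6⟩ := h3 (num w) hlog
    refine hc _ ?_ ?_ ?_ ?_ ?_ ?_ ?_ ?_ ?_ ?_
    · show (Nat.unpair (Nat.unpair e).1).1 = eS
      rw [he]
      simp only [Nat.unpair_pair]
    · show (Nat.unpair (Nat.unpair e).1).2 = eA
      rw [he]
      simp only [Nat.unpair_pair]
    · show (Nat.unpair (Nat.unpair e).2).1 = eB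
      rw [he]
      simp only [Nat.unpair_pair]
    · show (Nat.unpair (Nat.unpair (Nat.unpair e).2).2).1 = eN
      rw [he]
      simp only [Nat.unpair_pair]
    · show (Nat.unpair (Nat.unpair (Nat.unpair e).2).2).2 = eW
      rw [he]
      simp only [Nat.unpair_pair]
    · rw [pS, pZ, pH, pΛ]
      convert h1 using 1
    · rw [pS, pZ, pH, pΛ, pβ]
      convert h2 using 1
    · rw [pS]
      exact h4
    · rw [pZ]
      exact h5
    · rw [pH]
      exact h6
  -- the simulation
  have hsim : ∀ z : Qn, okU z.n z.T ≠ 0 →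
      z.val = (z.m.conf (KU z.n z.T * 2 ^ eU z.n z.T)).1 := by
    intro z hz
    exact hTR z.m (eU z.n z.T) (KU z.n z.T) z.b z.c (hP.2.2 z hz)
  constructor
  · intro T _ hne
    unfold accU at hne
    have h0 := lt01_ne hne
    have h1 : Qn.s (e, num w, num y, T) (Qn.val (e, num w, num y, T)) ≠ 0 := h0.ne'
    unfold Qn.s at h1
    have hok : okU (Qn.n (e, num w, num y, T)) (Qn.T (e, num w, num y, T)) ≠ 0 := fun h =>
      h1 (by rw [h, zero_mul])
    have hp0 : 0 < Qn.p (e, num w, num y, T) := lt01_ne fun h => h1 (by rw [h, zero_mul, mul_zero])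
    have hp1 : Qn.p (e, num w, num y, T) <
        2 ^ (bT (Qn.n (e, num w, num y, T)) (Qn.T (e, num w, num y, T)) 0 + 1) :=
      lt01_ne fun h => h1 (by rw [h, zero_mul, mul_zero, mul_zero])
    have ha : accN (Qn.val (e, num w, num y, T)) ≠ 0 := fun h =>
      h1 (by rw [h, mul_zero, mul_zero, mul_zero])
    rw [hsim _ hok] at ha
    obtain ⟨p, hp⟩ := Pool.Agent.Helper65.LinSpace.exists_num hp0
    have hn : Qn.n (e, num w, num y, T) = w.length := hlog
    have hm : Qn.m (e, num w, num y, T) =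
        (prm e (num w) (num y) (Qn.T (e, num w, num y, T)) (num p)).mach := by
      rw [hp]; rfl
    have hpl : p.length ≤ (prm e (num w) (num y) (Qn.T (e, num w, num y, T)) (num p)).S := by
      rw [pS, ← Pool.Agent.Helper65.LinSpace.log_num p]
      rw [← hp, hn] at hp1
      have := Nat.log_lt_of_lt_pow (by rw [hp]; exact hp0.ne') hp1
      omega
    rw [hm] at ha
    obtain ⟨j, hj⟩ := hR.snd (prm e (num w) (num y) (Qn.T (e, num w, num y, T)) (num p))
      (KU (Qn.n (e, num w, num y, T)) (Qn.T (e, num w, num y, T)) *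
        2 ^ eU (Qn.n (e, num w, num y, T)) (Qn.T (e, num w, num y, T)))
    rw [hj] at ha
    obtain ⟨t, ht⟩ := hW.snd A _ w y p (hcod _ (num p)) rfl rfl rfl hpl j ha
    exact ⟨p, t, ht⟩
  · rintro ⟨p, r₁, s₁, m, a, hacc, hps, hfit, b1, b2⟩
    classical
    have hex : ∃ r, A.AcceptsAt w y p r := ⟨r₁, hacc⟩
    set r := Nat.find hex with hr
    have hr0 : A.AcceptsAt w y p r := Nat.find_spec hex
    have hrmin : ∀ t < r, ¬ A.AcceptsAt w y p t := fun t ht => Nat.find_min hex ht
    have hrr : r ≤ r₁ := Nat.find_min' hex hacc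
    have hfit' : A.Fits w y p r s₁ m a := fun t ht => hfit t (ht.trans hrr)
    have hs : 1 ≤ s₁ := by
      have h1 := (hfit' r le_rfl).1
      have h2 : (A.conf w y p r).1 ≠ [] := by
        intro h
        unfold BM.AcceptsAt at hr0
        rw [h] at hr0
        simp at hr0
      have h3 : 0 < (A.conf w y p r).1.length := List.length_pos_iff.2 h2
      omega
    have hreads : A.reads w y p r ≤ A.reads w y p r₁ := by
      unfold BM.reads
      apply Set.ncard_le_ncard
      · intro t ht
        exact ⟨lt_of_lt_of_le ht.1 hrr, ht.2⟩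
      · exact (Set.finite_lt_nat r₁).subset fun t ht => ht.1
    have b1' : ((A.reads w y p r : ℕ) : ℝ) * ((a : ℝ) + 1) *
        ((m : ℝ) + ((Nat.log 2 w.length : ℝ) + 1)) ^ 4 ≤ C * ((w.length : ℝ) + 1) ^ 2 := by
      refine le_trans ?_ b1
      have : ((A.reads w y p r : ℕ) : ℝ) ≤ ((A.reads w y p r₁ : ℕ) : ℝ) := by exact_mod_cast hreads
      gcongr
    obtain ⟨T, hT0, e0, e1, e2, e3, e4⟩ := hn₁ w.length (by omega) (A.reads w y p r) s₁ m a hs
      b1' b2
    have hpr : num p < 2 ^ (s₁ + 1) := num_lt hps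
    have hs1 : s₁ ≤ w.length := by
      rw [← e0]
      exact (min_le_right _ _).trans (ZL_le' _)
    have hx : 2 ^ w.length ≤ num w := by
      rw [← hlog]
      exact Nat.pow_log_le_self 2 (Pool.Agent.Helper65.LinSpace.num_pos w).ne'
    have hpx : num p < 2 * num w + 2 := by
      have h1 : 2 ^ (s₁ + 1) ≤ 2 ^ (w.length + 1) :=
        Nat.pow_le_pow_right (by norm_num) (by omega)
      have h2 : 2 ^ (w.length + 1) = 2 * 2 ^ w.length := by ring
      omega
    have hT' : T * (2 * num w + 2) + num p < NFU (num w) := by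
      unfold NFU
      rw [hlog]
      calc T * (2 * num w + 2) + num p < T * (2 * num w + 2) + (2 * num w + 2) := by omega
        _ = (T + 1) * (2 * num w + 2) := by ring
        _ ≤ (w.length + 2) ^ 3 * (2 * num w + 2) := Nat.mul_le_mul_right _ hT0
    refine ⟨T * (2 * num w + 2) + num p, hT', ?_⟩
    set z : Qn := (e, num w, num y, T * (2 * num w + 2) + num p) with hz
    have zn : z.n = w.length := hlog
    have zT : z.T = T := by
      show (T * (2 * num w + 2) + num p) / (2 * num w + 2) = T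
      rw [Nat.add_comm, Nat.add_mul_div_right _ _ (by omega), Nat.div_eq_of_lt hpx, zero_add]
    have zp : z.p = num p := by
      show (T * (2 * num w + 2) + num p) % (2 * num w + 2) = num p
      rw [Nat.add_comm, Nat.add_mul_mod_self_right, Nat.mod_eq_of_lt hpx]
    have zm : z.m = (prm e (num w) (num y) T (num p)).mach := by
      show (prm e (num w) (num y) z.T z.p).mach = _
      rw [zT, zp]
    have hok : okU z.n z.T = 1 := by rw [zn, zT, e3]
    have hcmp := hW.cmp A (prm e (num w) (num y) T (num p)) w y p (hcod T (num p)) rfl rfl rfl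
      (by rw [pS, e0]; exact hps) r (by rw [pS, pH, pZ, e0, e1, e2]; exact hfit') hrmin
    have hrun := hR.cmp (prm e (num w) (num y) T (num p)) r (by
        rw [(hcmp r le_rfl).1]
        have := (accN_num (A.conf w y p r).1).2 hr0
        omega) (by
        intro j hj
        rw [(hcmp j hj.le).1]
        exact accN_eq_zero (hrmin j hj)) (KU w.length T * 2 ^ eU w.length T) (by
        refine le_trans (le_of_eq ?_) e4
        unfold BM.reads
        congr 1
        ext j
        constructor
        · rintro ⟨h1, h2⟩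
          exact ⟨h1, (hcmp j h1.le).2.1 h2⟩
        · rintro ⟨h1, h2⟩
          exact ⟨h1, (hcmp j h1.le).2.2 h2⟩)
    have hval : accN z.val ≠ 0 := by
      rw [hsim z (by rw [hok]; exact one_ne_zero), zm, zn, zT]
      exact hrun
    have hs' : z.s z.val ≠ 0 := by
      show okU z.n z.T * (lt01 0 z.p * (lt01 z.p (2 ^ (bT z.n z.T 0 + 1)) * accN z.val)) ≠ 0
      rw [hok, zp, zn, zT, e0, lt01, if_pos (Pool.Agent.Helper65.LinSpace.num_pos p), lt01,
        if_pos hpr, one_mul, one_mul, one_mul]
      exact hval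
    show lt01 0 (z.s z.val) ≠ 0
    rw [lt01, if_pos (Nat.pos_of_ne_zero hs')]
    exact one_ne_zero

end Pool.Agent.Helper67.UR
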